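import Mathlib

set_option autoImplicit false

open Finset

namespace BT496

/-- `S` contains a directed cycle of the digraph `A` (a nonempty set in which everybody has an out-neighbour) -/
def HasCyc {V : Type} (A : V → V → Prop) (S : Finset V) : Prop :=
  ∃ T ⊆ S, T.Nonempty ∧ ∀ v ∈ T, ∃ w ∈ T, A v w

open Classical in
/-- few sets of size `j+1` contain no cycle: such a set has a sink -/
theorem acyclic_count {V : Type} [Fintype V] [DecidableEq V] (A : V → V → Prop)
    (hirr : ∀ v, ¬ A v v) (d : ℕ) (hA : ∀ v, d ≤ #{w | A v w}) (j : ℕ) :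
    #{S : Finset V | #S = j + 1 ∧ ¬ HasCyc A S} ≤
      Fintype.card V * (Fintype.card V - 1 - d).choose j := by
  have key : ({S : Finset V | #S = j + 1 ∧ ¬ HasCyc A S} : Finset (Finset V)) ⊆
      univ.biUnion (fun v => (powersetCard j ((univ.erase v) \ ({w | A v w} : Finset V))).image
        (insert v)) := by
    intro S hS
    rw [mem_filter] at hS
    obtain ⟨-, hc, hn⟩ := hS
    have hne : S.Nonempty := by
      rw [← card_pos]; omega
    have hex : ∃ v ∈ S, ∀ w ∈ S, ¬ A v w := by
      by_contra hcon
      push Not at hcon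
      exact hn ⟨S, Subset.refl _, hne, hcon⟩
    obtain ⟨v, hv, hvw⟩ := hex
    rw [mem_biUnion]
    refine ⟨v, mem_univ _, ?_⟩
    rw [mem_image]
    refine ⟨S.erase v, ?_, insert_erase hv⟩
    rw [mem_powersetCard]
    refine ⟨?_, by rw [card_erase_of_mem hv]; omega⟩
    intro w hw
    rw [mem_erase] at hw
    rw [mem_sdiff, mem_erase]
    refine ⟨⟨hw.1, mem_univ _⟩, ?_⟩
    intro h
    rw [mem_filter] at h
    exact hvw w hw.2 h.2
  refine (card_le_card key).trans (card_biUnion_le.trans ?_)
  have hb : ∀ v ∈ (univ : Finset V), #((powersetCard j ((univ.erase v) \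
      ({w | A v w} : Finset V))).image (insert v)) ≤ (Fintype.card V - 1 - d).choose j := by
    intro v _
    refine card_image_le.trans ?_
    rw [card_powersetCard]
    refine Nat.choose_le_choose j ?_
    have hsub : ({w | A v w} : Finset V) ⊆ univ.erase v := by
      intro w hw
      rw [mem_filter] at hw
      rw [mem_erase]
      refine ⟨?_, mem_univ _⟩
      rintro rfl
      exact hirr _ hw.2
    have h1 := card_sdiff_add_card_eq_card hsub
    have h2 : #(univ.erase v) = Fintype.card V - 1 := by
      rw [card_erase_of_mem (mem_univ v), card_univ]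
    have h3 := hA v
    omega
  refine (sum_le_sum hb).trans ?_
  rw [sum_const, card_univ, smul_eq_mul]

end BT496
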