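import Mathlib

set_option autoImplicit false

open Finset

namespace BT496

/-- a nonempty finite set in which everybody has an out-neighbour contains a directed cycle -/
theorem cycle_extract {V : Type} (A : V → V → Prop) (hirr : ∀ v, ¬ A v v) (T : Finset V)
    (hT : T.Nonempty) (h : ∀ v ∈ T, ∃ w ∈ T, A v w) :
    ∃ (l : ℕ) (c : Fin (l + 2) → V), Function.Injective c ∧ (∀ i, c i ∈ T) ∧
      ∀ i, A (c i) (c (i + 1)) := by
  choose f hfT hfA using h
  obtain ⟨F, hF⟩ : ∃ F : T → T, ∀ v : T, A v (F v) :=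
    ⟨fun v => ⟨f v v.2, hfT v v.2⟩, fun v => hfA v v.2⟩
  obtain ⟨x0, hx0⟩ := hT
  obtain ⟨y, hy⟩ : ∃ y : T, y ∈ Function.periodicPts F := by
    obtain ⟨a, b, hab, he⟩ := Finite.exists_ne_map_eq_of_infinite (fun n : ℕ => F^[n] ⟨x0, hx0⟩)
    have key : ∀ a b : ℕ, a < b → F^[a] ⟨x0, hx0⟩ = F^[b] ⟨x0, hx0⟩ →
        ∃ y : T, y ∈ Function.periodicPts F := by
      intro a b hlt he
      refine ⟨F^[a] ⟨x0, hx0⟩, Function.mk_mem_periodicPts (n := b - a) (by omega) ?_⟩
      change F^[b - a] (F^[a] ⟨x0, hx0⟩) = F^[a] ⟨x0, hx0⟩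
      rw [← Function.iterate_add_apply, Nat.sub_add_cancel hlt.le, ← he]
    rcases lt_or_gt_of_ne hab with hlt | hlt
    · exact key a b hlt he
    · exact key b a hlt he.symm
  have hp := Function.minimalPeriod_pos_of_mem_periodicPts hy
  have hp1 : Function.minimalPeriod F y ≠ 1 := by
    intro h1
    have h2 := Function.isPeriodicPt_minimalPeriod F y
    rw [h1] at h2
    have h3 : F y = y := h2
    have h4 := hF y
    rw [h3] at h4
    exact hirr _ h4
  obtain ⟨l, hl⟩ : ∃ l, Function.minimalPeriod F y = l + 2 :=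
    ⟨Function.minimalPeriod F y - 2, by omega⟩
  refine ⟨l, fun i => (F^[(i : ℕ)] y : V), ?_, fun i => (F^[(i : ℕ)] y).2, ?_⟩
  · intro i j hij
    have h5 : F^[(i : ℕ)] y = F^[(j : ℕ)] y := Subtype.ext hij
    apply Fin.ext
    apply Function.iterate_injOn_Iio_minimalPeriod (f := F) (x := y)
    · rw [Set.mem_Iio, hl]; exact i.2
    · rw [Set.mem_Iio, hl]; exact j.2
    · exact h5
  · intro i
    have h6 : F^[((i + 1 : Fin (l + 2)) : ℕ)] y = F (F^[(i : ℕ)] y) := by
      have h7 : ∀ m : ℕ, F^[m % (l + 2)] y = F^[m] y := by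
        intro m
        rw [← hl, Function.iterate_mod_minimalPeriod_eq]
      rw [Fin.val_add, Fin.val_one, h7, Function.iterate_succ_apply']
    change A (F^[(i : ℕ)] y : V) (F^[((i + 1 : Fin (l + 2)) : ℕ)] y : V)
    rw [h6]
    exact hF _

end BT496
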