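import Mathlib
import Pool.Agent.Helper903.ES.Main

set_option autoImplicit false

open Finset

namespace BT496

open ES903

/-- iterated disjoint occurrence -/
def iterC {V : Type} [DecidableEq V] (f : Finset V → Prop) : ℕ → Finset V → Prop
  | 0 => fun _ => True
  | k + 1 => comp f (iterC f k)

theorem iterC_mono {V : Type} [DecidableEq V] (f : Finset V → Prop) (k : ℕ) :
    ∀ S T : Finset V, S ⊆ T → iterC f k S → iterC f k T := by
  induction k with
  | zero => intro S T _ _; trivial
  | succ k ih => intro S T h hc; exact RT.comp_mono ih S T h hc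

theorem E_iterC {V : Type} [DecidableEq V] (R : Finset V) (f : Finset V → Prop) (k : ℕ) :
    E R (Fail (iterC f k)) ≤ k * E R (Fail f) := by
  induction k with
  | zero => simp [iterC, Fail, E]
  | succ k ih =>
    have h := glue R f (iterC f k)
    have h2 : E R (Fail (iterC f (k + 1))) = E R (Fail (comp f (iterC f k))) := rfl
    rw [h2]
    push_cast
    linarith

theorem iterC_extract {V : Type} [DecidableEq V] (f : Finset V → Prop) (k : ℕ) :
    ∀ S : Finset V, iterC f k S → ∃ T : Fin k → Finset V, (∀ i, T i ⊆ S) ∧ (∀ i, f (T i)) ∧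
      ∀ i j, i ≠ j → Disjoint (T i) (T j) := by
  induction k with
  | zero => intro S _; exact ⟨fun i => i.elim0, fun i => i.elim0, fun i => i.elim0, fun i => i.elim0⟩
  | succ k ih =>
    intro S hS
    obtain ⟨S1, h1, h2, h3⟩ := hS
    obtain ⟨T, a, b, c⟩ := ih _ h3
    refine ⟨Fin.cons S1 T, ?_, ?_, ?_⟩
    · intro i
      refine Fin.cases ?_ (fun i => ?_) i
      · simpa using h1
      · simpa using (a i).trans Finset.sdiff_subset
    · intro i
      refine Fin.cases ?_ (fun i => ?_) i
      · simpa using h2
      · simpa using b i
    · intro i j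
      refine Fin.cases ?_ (fun i => ?_) i
      · refine Fin.cases ?_ (fun j => ?_) j
        · intro h; exact absurd rfl h
        · intro _
          simp only [Fin.cons_zero, Fin.cons_succ]
          exact (Finset.disjoint_of_subset_left (a j) Finset.sdiff_disjoint).symm
      · refine Fin.cases ?_ (fun j => ?_) j
        · intro _
          simp only [Fin.cons_zero, Fin.cons_succ]
          exact Finset.disjoint_of_subset_left (a i) Finset.sdiff_disjoint
        · intro h
          simp only [Fin.cons_succ]
          exact c i j (fun h' => h (by rw [h']))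

theorem disjoint_of_E {V : Type} [Fintype V] [DecidableEq V] (f : Finset V → Prop) (k : ℕ)
    (h : (k : ℚ) * E univ (Fail f) < (Fintype.card V : ℚ) + 1) :
    ∃ T : Fin k → Finset V, (∀ i, f (T i)) ∧ ∀ i j, i ≠ j → Disjoint (T i) (T j) := by
  have key : iterC f k univ := by
    by_contra hc
    have h0 : ∀ S : Finset V, S ⊆ univ → (fun _ => (1 : ℚ)) S ≤ Fail (iterC f k) S := by
      intro S hS
      have h' : ¬ iterC f k S := fun h => hc (iterC_mono f k S univ hS h)
      simp [Fail, h']
    have h1 := E_mono univ h0
    rw [E_one, Finset.card_univ] at h1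
    have h2 := E_iterC univ f k
    linarith
  obtain ⟨T, _, b, c⟩ := iterC_extract f k univ key
  exact ⟨T, b, c⟩

end BT496
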