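import Mathlib
import Pool.Agent.Helper903.ES.Main

set_option autoImplicit false

open Finset

namespace BT496

open ES903

open Classical in
theorem card_eq251 {V : Type} [Fintype V] [DecidableEq V] (f : Finset V → Prop) (j : ℕ) :
    ((powersetCard j (univ : Finset V)).filter (fun S => ¬ f S)) =
      ({S : Finset V | #S = j ∧ ¬ f S} : Finset (Finset V)) := by
  ext S
  simp only [Finset.mem_filter, Finset.mem_powersetCard, Finset.mem_univ, true_and]
  exact ⟨fun h => ⟨h.1.2, h.2⟩, fun h => ⟨⟨Finset.subset_univ S, h.1⟩, h.2⟩⟩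

open Classical in
/-- level by level bound for the expected hitting time: `t j` bounds the fraction of failing `j`-sets -/
theorem E_levels {V : Type} [Fintype V] [DecidableEq V] (f : Finset V → Prop) (t : ℕ → ℚ)
    (ht : ∀ j ≤ Fintype.card V,
      (#{S : Finset V | #S = j ∧ ¬ f S} : ℚ) / ((Fintype.card V).choose j : ℚ) ≤ t j) :
    E univ (Fail f) ≤ ∑ j ∈ range (Fintype.card V + 1), t j := by
  unfold E
  rw [Finset.sum_powerset, Finset.card_univ]
  refine Finset.sum_le_sum fun j hj => ?_
  have hj' : j ≤ Fintype.card V := Nat.lt_succ_iff.1 (Finset.mem_range.1 hj)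
  refine le_trans (le_of_eq ?_) (ht j hj')
  have h1 : ∀ S ∈ powersetCard j (univ : Finset V),
      Fail f S / ((Fintype.card V).choose (#S) : ℚ) =
      (if ¬ f S then (1 : ℚ) else 0) / ((Fintype.card V).choose j : ℚ) := by
    intro S hS
    rw [(Finset.mem_powersetCard.1 hS).2]
    unfold Fail
    by_cases h : f S
    · rw [if_pos h, if_neg (not_not.2 h)]
    · rw [if_neg h, if_pos h]
  rw [Finset.sum_congr rfl h1, ← Finset.sum_div, ← card_eq251, Finset.sum_boole]

open Classical in
/-- the fraction of failing `j`-sets is at most one -/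
theorem level_le_one {V : Type} [Fintype V] [DecidableEq V] (f : Finset V → Prop) (j : ℕ) :
    (#{S : Finset V | #S = j ∧ ¬ f S} : ℚ) / ((Fintype.card V).choose j : ℚ) ≤ 1 := by
  apply div_le_one_of_le₀
  · rw [← card_eq251]
    have h1 := Finset.card_filter_le (powersetCard j (univ : Finset V)) (fun S => ¬ f S)
    rw [Finset.card_powersetCard, Finset.card_univ] at h1
    exact_mod_cast h1
  · positivity

end BT496
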