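import Mathlib

set_option autoImplicit false

open Finset

namespace BT496

theorem cr_aux (N d : ℕ) (hN : 1 ≤ N) (hd : d ≤ N) : ∀ j : ℕ,
    ((N - d).choose j : ℚ) ≤ (1 - (d : ℚ) / N) ^ j * (N.choose j : ℚ) := by
  have hNq : (0 : ℚ) < N := by exact_mod_cast hN
  have hdq : (d : ℚ) ≤ N := by exact_mod_cast hd
  have hr : 0 ≤ 1 - (d : ℚ) / N := by
    rw [sub_nonneg, div_le_one hNq]; exact hdq
  intro j
  induction j with
  | zero => simp
  | succ j ih =>
    have e1 : ((N - d).choose (j + 1) : ℚ) * (j + 1) = ((N - d).choose j : ℚ) * ((N - d - j : ℕ) : ℚ) := by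
      have := Nat.choose_succ_right_eq (N - d) j
      exact_mod_cast this
    have e2 : (N.choose (j + 1) : ℚ) * (j + 1) = (N.choose j : ℚ) * ((N - j : ℕ) : ℚ) := by
      have := Nat.choose_succ_right_eq N j
      exact_mod_cast this
    have h1 : ((N - d - j : ℕ) : ℚ) ≤ (1 - (d : ℚ) / N) * ((N - j : ℕ) : ℚ) := by
      by_cases hj : j ≤ N - d
      · have e3 : ((N - d - j : ℕ) : ℚ) = N - d - j := by
          rw [Nat.cast_sub hj, Nat.cast_sub hd]
        have e4 : ((N - j : ℕ) : ℚ) = N - j := by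
          rw [Nat.cast_sub (by omega)]
        rw [e3, e4]
        have e5 : (1 - (d : ℚ) / N) * (N - j) = N - d - j + d * j / N := by
          field_simp
          ring
        rw [e5]
        have : 0 ≤ (d : ℚ) * j / N := by positivity
        linarith
      · have e3 : N - d - j = 0 := by omega
        rw [e3]
        push_cast
        positivity
    have h2 : ((N - d).choose (j + 1) : ℚ) * (j + 1)
        ≤ (1 - (d : ℚ) / N) ^ (j + 1) * (N.choose (j + 1) : ℚ) * (j + 1) := by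
      rw [e1, mul_assoc, e2]
      calc ((N - d).choose j : ℚ) * ((N - d - j : ℕ) : ℚ)
          ≤ ((1 - (d : ℚ) / N) ^ j * (N.choose j : ℚ)) * ((1 - (d : ℚ) / N) * ((N - j : ℕ) : ℚ)) :=
            mul_le_mul ih h1 (by positivity) (by positivity)
        _ = _ := by ring
    exact le_of_mul_le_mul_right h2 (by positivity)

theorem ts_aux (x : ℚ) (hx : 0 < x) (m : ℕ) (hm : 1 ≤ m) : ∀ k : ℕ,
    ∑ j ∈ Ico m (m + k), (j : ℚ) * (1 - x) ^ (j - 1) =
      (1 - x) ^ (m - 1) * (m * x + (1 - x)) / x ^ 2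
        - (1 - x) ^ (m + k - 1) * (((m + k : ℕ) : ℚ) * x + (1 - x)) / x ^ 2 := by
  intro k
  induction k with
  | zero => simp
  | succ k ih =>
    rw [← add_assoc, Finset.sum_Ico_succ_top (by omega), ih]
    obtain ⟨l, hl⟩ : ∃ l, m + k = l + 1 := ⟨m + k - 1, by omega⟩
    rw [hl]
    simp only [Nat.add_sub_cancel]
    rw [pow_succ]
    push_cast
    field_simp
    ring

theorem choose_ratio (n d j : ℕ) (hn : 2 ≤ n) (hd : d ≤ n - 1) (hj : j + 1 ≤ n) :
    (n : ℚ) * ((n - 1 - d).choose j : ℚ) / (n.choose (j + 1) : ℚ) ≤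
      (j + 1 : ℚ) * (1 - (d : ℚ) / ((n : ℚ) - 1)) ^ j := by
  obtain ⟨N, rfl⟩ : ∃ N, n = N + 1 := ⟨n - 1, by omega⟩
  have hN : 1 ≤ N := by omega
  have hd' : d ≤ N := by omega
  have hjN : j ≤ N := by omega
  have h1 := cr_aux N d hN hd' j
  have e1 : ((N : ℚ) + 1) * (N.choose j : ℚ) = ((N + 1).choose (j + 1) : ℚ) * (j + 1) := by
    have := Nat.add_one_mul_choose_eq N j
    exact_mod_cast this
  have hpos : (0 : ℚ) < ((N + 1).choose (j + 1) : ℚ) := by
    have := Nat.choose_pos (show j + 1 ≤ N + 1 by omega)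
    exact_mod_cast this
  have e2 : N + 1 - 1 - d = N - d := by omega
  rw [e2, div_le_iff₀ hpos]
  push_cast
  have e3 : (N : ℚ) + 1 - 1 = N := by ring
  rw [e3]
  calc ((N : ℚ) + 1) * ((N - d).choose j : ℚ)
      ≤ ((N : ℚ) + 1) * ((1 - (d : ℚ) / N) ^ j * (N.choose j : ℚ)) :=
        mul_le_mul_of_nonneg_left h1 (by positivity)
    _ = (1 - (d : ℚ) / N) ^ j * (((N : ℚ) + 1) * (N.choose j : ℚ)) := by ring
    _ = (1 - (d : ℚ) / N) ^ j * (((N + 1).choose (j + 1) : ℚ) * (j + 1)) := by rw [e1]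
    _ = _ := by ring

/-- tail of the series -/
theorem tail_sum (x : ℚ) (hx : 0 < x) (hx1 : x ≤ 1) (m n : ℕ) (hm : 1 ≤ m) :
    ∑ j ∈ Ico m (n + 1), (j : ℚ) * (1 - x) ^ (j - 1) ≤
      (1 - x) ^ (m - 1) * (m * x + (1 - x)) / x ^ 2 := by
  have hF : ∀ k : ℕ, 0 ≤ (1 - x) ^ (k - 1) * ((k : ℚ) * x + (1 - x)) / x ^ 2 := by
    intro k
    have h1 : 0 ≤ 1 - x := by linarith
    positivity
  by_cases h : m ≤ n + 1
  · obtain ⟨k, hk⟩ := Nat.exists_eq_add_of_le h
    rw [hk, ts_aux x hx m hm k]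
    have := hF (m + k)
    linarith
  · rw [Finset.Ico_eq_empty (by omega), Finset.sum_empty]
    exact hF m

end BT496
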