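import Mathlib
import Pool.Agent.Helper903.ES.Main
import Pool.Agent.Helper496.BT.Iter
import Pool.Agent.Helper496.BT.Count
import Pool.Agent.Helper496.BT.Ratio
import Pool.Agent.Helper496.BT.Extract
import Pool.Agent.Helper496.BT.Levels

set_option autoImplicit false

open Finset

namespace BT496

open ES903

open Classical in
/-- the expected hitting time of the first cycle -/
theorem E_HasCyc {V : Type} [Fintype V] [DecidableEq V] (A : V → V → Prop)
    (hirr : ∀ v, ¬ A v v) (d m : ℕ) (hd : 1 ≤ d) (hm : 1 ≤ m)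
    (hA : ∀ v, d ≤ #{w | A v w}) (hn : 2 ≤ Fintype.card V) (hdn : d ≤ Fintype.card V - 1) :
    E univ (Fail (HasCyc A)) ≤ m + (1 - (d : ℚ) / ((Fintype.card V : ℚ) - 1)) ^ (m - 1) *
      (m * ((d : ℚ) / ((Fintype.card V : ℚ) - 1)) + (1 - (d : ℚ) / ((Fintype.card V : ℚ) - 1))) /
        ((d : ℚ) / ((Fintype.card V : ℚ) - 1)) ^ 2 := by
  set n := Fintype.card V with hnn
  set x : ℚ := (d : ℚ) / ((n : ℚ) - 1) with hx
  have hn1 : (1 : ℚ) ≤ (n : ℚ) - 1 := by
    have : (2 : ℚ) ≤ n := by exact_mod_cast hn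
    linarith
  have hdn' : (d : ℚ) ≤ (n : ℚ) - 1 := by
    have h1 : d + 1 ≤ n := by omega
    have : ((d + 1 : ℕ) : ℚ) ≤ n := by exact_mod_cast h1
    push_cast at this
    linarith
  have hd' : (0 : ℚ) < d := by exact_mod_cast hd
  have hx0 : 0 < x := by rw [hx]; positivity
  have hx1 : x ≤ 1 := by rw [hx, div_le_one (by linarith)]; exact hdn'
  let t : ℕ → ℚ := fun j => if j < m then 1 else (j : ℚ) * (1 - x) ^ (j - 1)
  have h1 := E_levels (HasCyc A) t (by
    intro j hj
    by_cases hjm : j < m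
    · simp only [t, hjm, if_true]
      exact level_le_one _ j
    · simp only [t, hjm, if_false]
      obtain ⟨i, rfl⟩ : ∃ i, j = i + 1 := ⟨j - 1, by omega⟩
      have h2 := acyclic_count A hirr d hA i
      rw [← hnn] at h2
      have h3 := choose_ratio n d i hn hdn hj
      have h4 : (#{S : Finset V | #S = i + 1 ∧ ¬ HasCyc A S} : ℚ) ≤
          (n : ℚ) * ((n - 1 - d).choose i : ℚ) := by exact_mod_cast h2
      have h5 : (#{S : Finset V | #S = i + 1 ∧ ¬ HasCyc A S} : ℚ) / (n.choose (i + 1) : ℚ) ≤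
          (n : ℚ) * ((n - 1 - d).choose i : ℚ) / (n.choose (i + 1) : ℚ) := by
        gcongr
      refine h5.trans (h3.trans (le_of_eq ?_))
      push_cast
      simp [hx])
  refine h1.trans ?_
  have h6 : ∑ j ∈ range (n + 1), t j = ∑ j ∈ range (n + 1), (if j < m then (1 : ℚ) else 0) +
      ∑ j ∈ range (n + 1), (if j < m then (0 : ℚ) else (j : ℚ) * (1 - x) ^ (j - 1)) := by
    rw [← Finset.sum_add_distrib]
    refine Finset.sum_congr rfl fun j _ => ?_
    by_cases hjm : j < m <;> simp [t, hjm]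
  rw [h6]
  have h7 : ∑ j ∈ range (n + 1), (if j < m then (1 : ℚ) else 0) ≤ m := by
    rw [Finset.sum_boole]
    have : #{j ∈ range (n + 1) | j < m} ≤ #(range m) := by
      refine Finset.card_le_card fun j hj => ?_
      simp only [Finset.mem_filter] at hj
      exact Finset.mem_range.2 hj.2
    rw [Finset.card_range] at this
    exact_mod_cast this
  have h8 : ∑ j ∈ range (n + 1), (if j < m then (0 : ℚ) else (j : ℚ) * (1 - x) ^ (j - 1)) =
      ∑ j ∈ Ico m (n + 1), (j : ℚ) * (1 - x) ^ (j - 1) := by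
    rw [Finset.sum_ite, Finset.sum_const_zero, zero_add]
    refine Finset.sum_congr ?_ fun _ _ => rfl
    ext j
    simp only [Finset.mem_filter, Finset.mem_range, Finset.mem_Ico, not_lt]
    tauto
  have h9 := tail_sum x hx0 hx1 m n hm
  rw [h8]
  linarith

/-- `k` pairwise vertex-disjoint directed cycles (of length at least 2) in the digraph `A` -/
def DisjointCycles {V : Type} (A : V → V → Prop) (k : ℕ) : Prop :=
  ∃ (l : Fin k → ℕ) (c : (i : Fin k) → Fin (l i + 2) → V),
    (∀ i, Function.Injective (c i)) ∧ (∀ i j, A (c i j) (c i (j + 1))) ∧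
    ∀ i i', i ≠ i' → ∀ j j', c i j ≠ c i' j'

theorem disjointCycles_of_E {V : Type} [Fintype V] [DecidableEq V] (A : V → V → Prop)
    (hirr : ∀ v, ¬ A v v) (k : ℕ)
    (h : (k : ℚ) * E univ (Fail (HasCyc A)) < (Fintype.card V : ℚ) + 1) :
    DisjointCycles A k := by
  obtain ⟨T, hT, hdis⟩ := disjoint_of_E (HasCyc A) k h
  choose T' hsub hne hout using hT
  choose l c hinj hmem harc using fun i => cycle_extract A hirr (T' i) (hne i) (hout i)
  refine ⟨l, c, hinj, harc, ?_⟩
  intro i i' hii j j' heq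
  have h1 := hsub i (hmem i j)
  have h2 := hsub i' (hmem i' j')
  rw [heq] at h1
  exact (Finset.disjoint_left.1 (hdis i i' hii)) h1 h2

end BT496
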