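import Mathlib

set_option autoImplicit false

namespace BT496

/-- choice of the parameter `m` -/
theorem choose_m' (n d k : ℕ) (hd : 1 ≤ d) (hdn : d ≤ n - 1)
    (hk : (k : ℝ) * (4 + Real.log (((n : ℝ) - 1) / d) + Real.log (1 + Real.log (((n : ℝ) - 1) / d))) ≤ d) :
    ∃ m : ℕ, 1 ≤ m ∧
      (k : ℝ) * (m - 1 + (1 - (d : ℝ) / (n - 1)) ^ (m - 1) *
        (m * ((d : ℝ) / (n - 1)) + (1 - (d : ℝ) / (n - 1))) / ((d : ℝ) / (n - 1)) ^ 2) < n := by
  have hn2 : 2 ≤ n := by omega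
  have hdn' : (d : ℝ) ≤ (n : ℝ) - 1 := by
    have : d + 1 ≤ n := by omega
    have h2 : ((d + 1 : ℕ) : ℝ) ≤ n := by exact_mod_cast this
    push_cast at h2
    linarith
  have hd0 : (0 : ℝ) < d := by exact_mod_cast hd
  have hn0 : (0 : ℝ) < (n : ℝ) - 1 := by linarith
  obtain ⟨C, hC⟩ : ∃ C, C = ((n : ℝ) - 1) / d := ⟨_, rfl⟩
  have hCd : C * d = (n : ℝ) - 1 := by rw [hC]; field_simp
  have hC1 : 1 ≤ C := by rw [hC, le_div_iff₀ hd0]; linarith
  have hC0 : 0 < C := by linarith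
  have hx : (d : ℝ) / ((n : ℝ) - 1) = 1 / C := by rw [hC, one_div_div]
  obtain ⟨l, hl⟩ : ∃ l, l = Real.log C := ⟨_, rfl⟩
  have hl0 : 0 ≤ l := by rw [hl]; exact Real.log_nonneg hC1
  have hexpl : Real.exp l = C := by rw [hl, Real.exp_log hC0]
  have h1l : 0 < 1 + l := by linarith
  obtain ⟨L, hL⟩ : ∃ L, L = l + Real.log (1 + l) := ⟨_, rfl⟩
  have hlog : Real.log (1 + l) ≤ l := by
    have := Real.log_le_sub_one_of_pos h1l
    linarith
  have hlog0 : 0 ≤ Real.log (1 + l) := Real.log_nonneg (by linarith)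
  have hL0 : 0 ≤ L := by rw [hL]; linarith
  have hL2 : L ≤ 2 * l := by rw [hL]; linarith
  have hexpL : Real.exp L = C * (1 + l) := by
    rw [hL, Real.exp_add, hexpl, Real.exp_log h1l]
  rw [← hC, ← hl] at hk
  have hk' : (k : ℝ) * (4 + L) ≤ d := by
    rw [hL]
    have : (k : ℝ) * (4 + (l + Real.log (1 + l))) = (k : ℝ) * (4 + l + Real.log (1 + l)) := by ring
    rw [this]; exact hk
  refine ⟨⌈C * L⌉₊ + 1, by omega, ?_⟩
  rw [Nat.add_sub_cancel, hx]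
  obtain ⟨p, hp⟩ : ∃ p, p = ⌈C * L⌉₊ := ⟨_, rfl⟩
  have hp1 : C * L ≤ p := by rw [hp]; exact Nat.le_ceil _
  have hp2 : (p : ℝ) < C * L + 1 := by rw [hp]; exact Nat.ceil_lt_add_one (by positivity)
  rw [← hp]
  push_cast
  have hx1 : 1 / C ≤ 1 := by rw [div_le_one hC0]; exact hC1
  have hpow : (1 - 1 / C) ^ p ≤ 1 / (C * (1 + l)) := by
    calc (1 - 1 / C) ^ p ≤ (Real.exp (-(1 / C))) ^ p := by
          apply pow_le_pow_left₀ (by linarith)
          have := Real.add_one_le_exp (-(1 / C))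
          linarith
      _ = Real.exp (-(p / C)) := by
          rw [← Real.exp_nat_mul]
          congr 1
          ring
      _ ≤ Real.exp (-L) := by
          apply Real.exp_le_exp.mpr
          have : L ≤ p / C := by rw [le_div_iff₀ hC0]; linarith
          linarith
      _ = 1 / (C * (1 + l)) := by rw [Real.exp_neg, hexpL, one_div]
  have hpow0 : 0 ≤ (1 - 1 / C) ^ p := pow_nonneg (by linarith) _
  have hterm : (1 - 1 / C) ^ p * (((p : ℝ) + 1) * (1 / C) + (1 - 1 / C)) / (1 / C) ^ 2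
      ≤ ((p : ℝ) + C) / (1 + l) := by
    have e1 : (1 - 1 / C) ^ p * (((p : ℝ) + 1) * (1 / C) + (1 - 1 / C)) / (1 / C) ^ 2
        = (1 - 1 / C) ^ p * (C * ((p : ℝ) + C)) := by
      field_simp
      ring
    rw [e1]
    calc (1 - 1 / C) ^ p * (C * ((p : ℝ) + C)) ≤ 1 / (C * (1 + l)) * (C * ((p : ℝ) + C)) :=
          mul_le_mul_of_nonneg_right hpow (by positivity)
      _ = ((p : ℝ) + C) / (1 + l) := by field_simp
  have hterm2 : ((p : ℝ) + C) / (1 + l) ≤ 2 * C + 1 := by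
    rw [div_le_iff₀ h1l]
    nlinarith
  have htot : ((p : ℝ) + 1 - 1) + (1 - 1 / C) ^ p * (((p : ℝ) + 1) * (1 / C) + (1 - 1 / C)) / (1 / C) ^ 2
      ≤ C * (4 + L) := by nlinarith
  have hk0 : (0 : ℝ) ≤ k := Nat.cast_nonneg k
  calc (k : ℝ) * (((p : ℝ) + 1 - 1) + (1 - 1 / C) ^ p * (((p : ℝ) + 1) * (1 / C) + (1 - 1 / C)) / (1 / C) ^ 2)
      ≤ (k : ℝ) * (C * (4 + L)) := mul_le_mul_of_nonneg_left htot hk0
    _ = C * ((k : ℝ) * (4 + L)) := by ring
    _ ≤ C * d := mul_le_mul_of_nonneg_left hk' hC0.le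
    _ = (n : ℝ) - 1 := hCd
    _ < n := by linarith

end BT496
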