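import Mathlib

set_option autoImplicit false

open Finset

namespace BT496

open Classical in
theorem edge_seq_del {V : Type} [DecidableEq V] (B : V → V → Prop)
    (hsymm : ∀ u v, B u v → B v u) (W : Finset V) (v : V) :
    #{p ∈ W ×ˢ W | B p.1 p.2} ≤ #{p ∈ (W.erase v) ×ˢ (W.erase v) | B p.1 p.2} + 2 * #{w ∈ W | B v w} := by
  have hsub : ({p ∈ W ×ˢ W | B p.1 p.2} : Finset (V × V)) ⊆
      ({p ∈ (W.erase v) ×ˢ (W.erase v) | B p.1 p.2} ∪
        ({w ∈ W | B v w} : Finset V).image (fun w => (v, w))) ∪
        ({w ∈ W | B v w} : Finset V).image (fun w => (w, v)) := by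
    intro p hp
    rw [Finset.mem_filter, Finset.mem_product] at hp
    obtain ⟨⟨h1, h2⟩, h3⟩ := hp
    rw [Finset.mem_union, Finset.mem_union, Finset.mem_image, Finset.mem_image, Finset.mem_filter,
      Finset.mem_product, Finset.mem_erase, Finset.mem_erase]
    by_cases e1 : p.1 = v
    · refine Or.inl (Or.inr ⟨p.2, ?_, ?_⟩)
      · rw [Finset.mem_filter]
        exact ⟨h2, e1 ▸ h3⟩
      · rw [← e1]
    · by_cases e2 : p.2 = v
      · refine Or.inr ⟨p.1, ?_, ?_⟩
        · rw [Finset.mem_filter]
          exact ⟨h1, hsymm _ _ (e2 ▸ h3)⟩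
        · rw [← e2]
      · exact Or.inl (Or.inl ⟨⟨⟨e1, h1⟩, ⟨e2, h2⟩⟩, h3⟩)
  have h1 := Finset.card_le_card hsub
  have h2 := Finset.card_union_le (({p ∈ (W.erase v) ×ˢ (W.erase v) | B p.1 p.2} ∪
        ({w ∈ W | B v w} : Finset V).image (fun w => (v, w)))) (({w ∈ W | B v w} : Finset V).image (fun w => (w, v)))
  have h3 := Finset.card_union_le ({p ∈ (W.erase v) ×ˢ (W.erase v) | B p.1 p.2} : Finset (V × V))
        (({w ∈ W | B v w} : Finset V).image (fun w => (v, w)))
  have h4 := Finset.card_image_le (s := ({w ∈ W | B v w} : Finset V)) (f := fun w => (v, w))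
  have h5 := Finset.card_image_le (s := ({w ∈ W | B v w} : Finset V)) (f := fun w => (w, v))
  omega

open Classical in
/-- a graph (symmetric irreflexive relation `B`) with more than `k(k-1)/2` edges inside `W` has `k` edges
`e 0, e 1, ...` such that each one shares at most one vertex with the union of the earlier ones -/
theorem edge_seq {V : Type} [Fintype V] [DecidableEq V] (B : V → V → Prop)
    (hirr : ∀ v, ¬ B v v) (hsymm : ∀ u v, B u v → B v u) (k : ℕ) : ∀ (W : Finset V),
    k * (k - 1) < #{p ∈ W ×ˢ W | B p.1 p.2} →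
    ∃ a b : Fin k → V, (∀ i, B (a i) (b i)) ∧ (∀ i, a i ∈ W) ∧ (∀ i, b i ∈ W) ∧
      ∀ i : Fin k, ∀ x y : V, (x = a i ∨ x = b i) → (∃ j, j < i ∧ (x = a j ∨ x = b j)) →
        (y = a i ∨ y = b i) → (∃ j, j < i ∧ (y = a j ∨ y = b j)) → x = y := by
  induction k with
  | zero =>
    intro W _
    exact ⟨Fin.elim0, Fin.elim0, fun i => i.elim0, fun i => i.elim0, fun i => i.elim0,
      fun i => i.elim0⟩
  | succ k ih =>
    intro W hW
    rw [Nat.add_sub_cancel] at hW
    by_cases h : ∃ v ∈ W, 1 ≤ #{w ∈ W | B v w} ∧ #{w ∈ W | B v w} ≤ k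
    · obtain ⟨v, hv, hd1, hdk⟩ := h
      have hdel := edge_seq_del B hsymm W v
      have hk : k * (k - 1) < #{p ∈ (W.erase v) ×ˢ (W.erase v) | B p.1 p.2} := by
        obtain ⟨k', rfl⟩ : ∃ k', k = k' + 1 := ⟨k - 1, by omega⟩
        rw [Nat.add_sub_cancel]
        nlinarith
      obtain ⟨a, b, hB, ha, hb, hab⟩ := ih (W.erase v) hk
      obtain ⟨w, hw⟩ := Finset.card_pos.1 (lt_of_lt_of_le zero_lt_one hd1)
      rw [Finset.mem_filter] at hw
      have hav : ∀ i, a i ≠ v := fun i => (Finset.mem_erase.1 (ha i)).1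
      have hbv : ∀ i, b i ≠ v := fun i => (Finset.mem_erase.1 (hb i)).1
      refine ⟨Fin.snoc (α := fun _ => V) a v, Fin.snoc (α := fun _ => V) b w, ?_, ?_, ?_, ?_⟩
      · intro i
        refine Fin.lastCases ?_ (fun i => ?_) i
        · rw [Fin.snoc_last, Fin.snoc_last]
          exact hw.2
        · rw [Fin.snoc_castSucc, Fin.snoc_castSucc]
          exact hB i
      · intro i
        refine Fin.lastCases ?_ (fun i => ?_) i
        · rw [Fin.snoc_last]
          exact hv
        · rw [Fin.snoc_castSucc]
          exact (Finset.mem_erase.1 (ha i)).2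
      · intro i
        refine Fin.lastCases ?_ (fun i => ?_) i
        · rw [Fin.snoc_last]
          exact hw.1
        · rw [Fin.snoc_castSucc]
          exact (Finset.mem_erase.1 (hb i)).2
      · intro i
        refine Fin.lastCases ?_ (fun i => ?_) i
        · have key : ∀ x : V, (x = Fin.snoc (α := fun _ => V) a v (Fin.last k) ∨
              x = Fin.snoc (α := fun _ => V) b w (Fin.last k)) →
              (∃ j, j < Fin.last k ∧ (x = Fin.snoc (α := fun _ => V) a v j ∨
                x = Fin.snoc (α := fun _ => V) b w j)) → x = w := by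
            intro x hx hj
            rw [Fin.snoc_last, Fin.snoc_last] at hx
            rcases hx with hx | hx
            · exfalso
              obtain ⟨j, hj1, hj2⟩ := hj
              revert hj1 hj2
              refine Fin.lastCases ?_ (fun j => ?_) j
              · intro hj1 _
                exact absurd hj1 (lt_irrefl _)
              · intro _ hj2
                rw [Fin.snoc_castSucc, Fin.snoc_castSucc] at hj2
                rcases hj2 with h | h
                · exact hav j (h ▸ hx)
                · exact hbv j (h ▸ hx)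
            · exact hx
          intro x y hx hxj hy hyj
          rw [key x hx hxj, key y hy hyj]
        · have key : ∀ x : V, (∃ j, j < Fin.castSucc i ∧ (x = Fin.snoc (α := fun _ => V) a v j ∨
                x = Fin.snoc (α := fun _ => V) b w j)) → ∃ j, j < i ∧ (x = a j ∨ x = b j) := by
            intro x hj
            obtain ⟨j, hj1, hj2⟩ := hj
            revert hj1 hj2
            refine Fin.lastCases ?_ (fun j => ?_) j
            · intro hj1 _
              exact absurd hj1 (not_lt.2 (Fin.le_last _))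
            · intro hj1 hj2
              rw [Fin.snoc_castSucc, Fin.snoc_castSucc] at hj2
              exact ⟨j, Fin.castSucc_lt_castSucc_iff.1 hj1, hj2⟩
          intro x y hx hxj hy hyj
          rw [Fin.snoc_castSucc, Fin.snoc_castSucc] at hx hy
          exact hab i x y hx (key x hxj) hy (key y hyj)
    · push Not at h
      obtain ⟨p, hp⟩ := Finset.card_pos.1 (lt_of_le_of_lt (Nat.zero_le _) hW)
      rw [Finset.mem_filter, Finset.mem_product] at hp
      obtain ⟨⟨hu, hw⟩, hB⟩ := hp
      have hd1 : 1 ≤ #{w ∈ W | B p.1 w} := Finset.card_pos.2 ⟨p.2, Finset.mem_filter.2 ⟨hw, hB⟩⟩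
      have hdk : k + 1 ≤ #{w ∈ W | B p.1 w} := h p.1 hu hd1
      obtain ⟨t, hts, htc⟩ := Finset.exists_subset_card_eq hdk
      let e : Fin (k+1) ≃ t := (Finset.equivFinOfCardEq htc).symm
      have he : ∀ i, (e i : V) ∈ W ∧ B p.1 (e i : V) := fun i =>
        Finset.mem_filter.1 (hts (e i).2)
      refine ⟨fun _ => p.1, fun i => (e i : V), fun i => (he i).2, fun _ => hu, fun i => (he i).1, ?_⟩
      intro i
      have key : ∀ x : V, (x = p.1 ∨ x = (e i : V)) → (∃ j, j < i ∧ (x = p.1 ∨ x = (e j : V))) →
          x = p.1 := by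
        intro x hx hj
        rcases hx with hx | hx
        · exact hx
        · obtain ⟨j, hj1, hj2 | hj2⟩ := hj
          · exact hj2
          · exfalso
            have h1 : e i = e j := Subtype.ext (hx.symm.trans hj2)
            have h2 := e.injective h1
            exact absurd hj1 (by rw [h2]; exact lt_irrefl _)
      intro x y hx hxj hy hyj
      rw [key x hx hxj, key y hy hyj]

end BT496
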