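import Mathlib

set_option autoImplicit false

open Finset

namespace BT496

open Classical in
theorem elim_del {V : Type} [DecidableEq V] (B : V → V → Prop)
    (hsymm : ∀ u v, B u v → B v u) (W : Finset V) (v : V) :
    #{p ∈ W ×ˢ W | B p.1 p.2} ≤ #{p ∈ (W.erase v) ×ˢ (W.erase v) | B p.1 p.2} + 2 * #{w ∈ W | B v w} := by
  have hsub : ({p ∈ W ×ˢ W | B p.1 p.2} : Finset (V × V)) ⊆
      ({p ∈ (W.erase v) ×ˢ (W.erase v) | B p.1 p.2} ∪
        ({w ∈ W | B v w} : Finset V).image (fun w => (v, w))) ∪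
        ({w ∈ W | B v w} : Finset V).image (fun w => (w, v)) := by
    intro p hp
    rw [Finset.mem_filter, Finset.mem_product] at hp
    obtain ⟨⟨h1, h2⟩, h3⟩ := hp
    rw [Finset.mem_union, Finset.mem_union, Finset.mem_image, Finset.mem_image, Finset.mem_filter,
      Finset.mem_product, Finset.mem_erase, Finset.mem_erase]
    by_cases e1 : p.1 = v
    · refine Or.inl (Or.inr ⟨p.2, ?_, ?_⟩)
      · rw [Finset.mem_filter]
        exact ⟨h2, e1 ▸ h3⟩
      · rw [← e1]
    · by_cases e2 : p.2 = v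
      · refine Or.inr ⟨p.1, ?_, ?_⟩
        · rw [Finset.mem_filter]
          exact ⟨h1, hsymm _ _ (e2 ▸ h3)⟩
        · rw [← e2]
      · exact Or.inl (Or.inl ⟨⟨⟨e1, h1⟩, ⟨e2, h2⟩⟩, h3⟩)
  have h1 := Finset.card_le_card hsub
  have h2 := Finset.card_union_le (({p ∈ (W.erase v) ×ˢ (W.erase v) | B p.1 p.2} ∪
        ({w ∈ W | B v w} : Finset V).image (fun w => (v, w)))) (({w ∈ W | B v w} : Finset V).image (fun w => (w, v)))
  have h3 := Finset.card_union_le ({p ∈ (W.erase v) ×ˢ (W.erase v) | B p.1 p.2} : Finset (V × V))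
        (({w ∈ W | B v w} : Finset V).image (fun w => (v, w)))
  have h4 := Finset.card_image_le (s := ({w ∈ W | B v w} : Finset V)) (f := fun w => (v, w))
  have h5 := Finset.card_image_le (s := ({w ∈ W | B v w} : Finset V)) (f := fun w => (w, v))
  omega

open Classical in
theorem elim_star {V : Type} [DecidableEq V] (B : V → V → Prop)
    (hirr : ∀ v, ¬ B v v) (Q : Finset V → ℕ → Prop)
    (hstep : ∀ (W : Finset V) (k : ℕ) (v u : V), v ∈ W → u ∈ W.erase v → B u v →
      Q (W.erase v) k → Q W (k + 1)) (k s : ℕ) : ∀ (W : Finset V) (u : V), u ∈ W →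
    s ≤ #{w ∈ W | B u w} →
    (∀ W' : Finset V, W' ⊆ W → #W' + s = #W → Q W' k) → Q W (k + s) := by
  induction s with
  | zero =>
    intro W u _ _ h
    exact h W (Finset.Subset.refl W) rfl
  | succ s ih =>
    intro W u hu hd h
    obtain ⟨v, hv⟩ := Finset.card_pos.1 (lt_of_lt_of_le (Nat.succ_pos s) hd)
    rw [Finset.mem_filter] at hv
    have huv : u ≠ v := by
      intro e
      exact hirr u (by rw [← e] at hv; exact hv.2)
    have hue : u ∈ W.erase v := Finset.mem_erase.2 ⟨huv, hu⟩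
    have hcard : #(W.erase v) + 1 = #W := Finset.card_erase_add_one hv.1
    have hd2 : s ≤ #{w ∈ W.erase v | B u w} := by
      have hsub : ({w ∈ W | B u w} : Finset V) ⊆ insert v ({w ∈ W.erase v | B u w} : Finset V) := by
        intro w hw
        rw [Finset.mem_filter] at hw
        rw [Finset.mem_insert, Finset.mem_filter, Finset.mem_erase]
        by_cases e : w = v
        · exact Or.inl e
        · exact Or.inr ⟨⟨e, hw.1⟩, hw.2⟩
      have h1 := Finset.card_le_card hsub
      have h2 := Finset.card_insert_le v ({w ∈ W.erase v | B u w} : Finset V)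
      omega
    have h3 := ih (W.erase v) u hue hd2 (fun W' hW' hc =>
      h W' (hW'.trans (Finset.erase_subset _ _)) (by omega))
    exact hstep W (k + s) v u hv.1 hue hv.2 h3

open Classical in
/-- elimination of `t` vertices of a graph with more than `t(t-1)/2` edges, one at a time, each having a neighbour
among the remaining ones -/
theorem elim {V : Type} [Fintype V] [DecidableEq V] (B : V → V → Prop)
    (hirr : ∀ v, ¬ B v v) (hsymm : ∀ u v, B u v → B v u) (Q : Finset V → ℕ → Prop)
    (hstep : ∀ (W : Finset V) (k : ℕ) (v u : V), v ∈ W → u ∈ W.erase v → B u v →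
      Q (W.erase v) k → Q W (k + 1)) (k t : ℕ) : ∀ (W : Finset V),
    (t = 0 ∨ t * (t - 1) < #{p ∈ W ×ˢ W | B p.1 p.2}) →
    (∀ W' : Finset V, W' ⊆ W → #W' + t = #W → Q W' k) → Q W (k + t) := by
  induction t with
  | zero =>
    intro W _ h
    exact h W (Finset.Subset.refl W) rfl
  | succ t ih =>
    intro W hW h
    have hW' : (t + 1) * t < #{p ∈ W ×ˢ W | B p.1 p.2} := by
      rcases hW with h0 | h0
      · exact absurd h0 (Nat.succ_ne_zero t)
      · rw [Nat.add_sub_cancel] at h0
        exact h0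
    by_cases hv : ∃ v ∈ W, 1 ≤ #{w ∈ W | B v w} ∧ #{w ∈ W | B v w} ≤ t
    · obtain ⟨v, hv, hd1, hdk⟩ := hv
      have hdel := elim_del B hsymm W v
      have hk : t * (t - 1) < #{p ∈ (W.erase v) ×ˢ (W.erase v) | B p.1 p.2} := by
        obtain ⟨t', rfl⟩ : ∃ t', t = t' + 1 := ⟨t - 1, by omega⟩
        rw [Nat.add_sub_cancel]
        nlinarith
      obtain ⟨u, hu⟩ := Finset.card_pos.1 (lt_of_lt_of_le zero_lt_one hd1)
      rw [Finset.mem_filter] at hu
      have huv : u ≠ v := by
        intro e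
        rw [e] at hu
        exact hirr v hu.2
      have hcard : #(W.erase v) + 1 = #W := Finset.card_erase_add_one hv
      have h3 := ih (W.erase v) (Or.inr hk) (fun W' hW' hc =>
        h W' (hW'.trans (Finset.erase_subset _ _)) (by omega))
      exact hstep W (k + t) v u hv (Finset.mem_erase.2 ⟨huv, hu.1⟩) (hsymm _ _ hu.2) h3
    · push Not at hv
      obtain ⟨p, hp⟩ := Finset.card_pos.1 (lt_of_le_of_lt (Nat.zero_le _) hW')
      rw [Finset.mem_filter, Finset.mem_product] at hp
      obtain ⟨⟨hu, hw⟩, hB⟩ := hp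
      have hd1 : 1 ≤ #{w ∈ W | B p.1 w} := Finset.card_pos.2 ⟨p.2, Finset.mem_filter.2 ⟨hw, hB⟩⟩
      have hdk : t + 1 ≤ #{w ∈ W | B p.1 w} := hv p.1 hu hd1
      exact elim_star B hirr Q hstep k (t + 1) W p.1 hu hdk h

end BT496
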