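import Mathlib
import Pool.Agent.Helper903.ES.Main
import Pool.Agent.Helper496.BT.Iter
import Pool.Agent.Helper496.BT.Bound

set_option autoImplicit false

open Finset

namespace BT496

open ES903

theorem disjoint_of_E_R {V : Type} [DecidableEq V] (R : Finset V) (f : Finset V → Prop) (k : ℕ)
    (h : (k : ℚ) * E R (Fail f) < (R.card : ℚ) + 1) :
    ∃ T : Fin k → Finset V, (∀ i, T i ⊆ R) ∧ (∀ i, f (T i)) ∧
      ∀ i j, i ≠ j → Disjoint (T i) (T j) := by
  have key : iterC f k R := by
    by_contra hc
    have h0 : ∀ S : Finset V, S ⊆ R → (fun _ => (1 : ℚ)) S ≤ Fail (iterC f k) S := by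
      intro S hS
      have h' : ¬ iterC f k S := fun h => hc (iterC_mono f k S R hS h)
      simp [Fail, h']
    have h1 := E_mono R h0
    rw [E_one] at h1
    have h2 := E_iterC R f k
    linarith
  exact iterC_extract f k R key

/-- `k` cycles of the digraph, any two of which share at most one common vertex `u` -/
def Flower {V : Type} (A : V → V → Prop) (k : ℕ) : Prop :=
  ∃ (u : V) (l : Fin k → ℕ) (c : (i : Fin k) → Fin (l i + 2) → V),
    (∀ i, Function.Injective (c i)) ∧ (∀ i j, A (c i j) (c i (j + 1))) ∧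
    ∀ i i', i ≠ i' → ∀ j j', c i j = c i' j' → c i j = u

theorem flower_of_E {V : Type} [Fintype V] [DecidableEq V] [Nonempty V] (A : V → V → Prop)
    (hirr : ∀ v, ¬ A v v) (k : ℕ)
    (h : (k : ℚ) * (E univ (Fail (HasCyc A)) - 1) < (Fintype.card V : ℚ)) : Flower A k := by
  have hempty : Fail (HasCyc A) ∅ = 1 := by
    have : ¬ HasCyc A ∅ := by
      rintro ⟨T, hT, hne, -⟩
      rw [Finset.subset_empty] at hT
      exact hne.ne_empty hT
    simp [Fail, this]
  have hn0 : (0 : ℚ) < (Fintype.card V : ℚ) := by
    exact_mod_cast Fintype.card_pos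
  have h1 := E_first (univ : Finset V) (Fail (HasCyc A))
  rw [hempty, Finset.card_univ] at h1
  have hex : ∃ u : V, (k : ℚ) * E (univ.erase u) (fun S => Fail (HasCyc A) (insert u S)) <
      (Fintype.card V : ℚ) := by
    by_contra hcon
    push Not at hcon
    have h2 : ∑ _u : V, (Fintype.card V : ℚ) ≤
        ∑ u : V, (k : ℚ) * E (univ.erase u) (fun S => Fail (HasCyc A) (insert u S)) :=
      Finset.sum_le_sum fun u _ => hcon u
    rw [← Finset.mul_sum, h1, Finset.sum_const, Finset.card_univ, nsmul_eq_mul] at h2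
    have h3 : (k : ℚ) * ((Fintype.card V : ℚ) * (E univ (Fail (HasCyc A)) - 1)) =
        (Fintype.card V : ℚ) * ((k : ℚ) * (E univ (Fail (HasCyc A)) - 1)) := by ring
    rw [h3] at h2
    have h4 := mul_lt_mul_of_pos_left h hn0
    linarith
  obtain ⟨u, hu⟩ := hex
  have hcard : (((univ : Finset V).erase u).card : ℚ) + 1 = (Fintype.card V : ℚ) := by
    have h5 : ((univ : Finset V).erase u).card + 1 = Fintype.card V := by
      rw [Finset.card_erase_add_one (Finset.mem_univ u), Finset.card_univ]
    exact_mod_cast h5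
  have hu' : (k : ℚ) * E (univ.erase u) (Fail (fun S => HasCyc A (insert u S))) <
      (((univ : Finset V).erase u).card : ℚ) + 1 := by
    rw [hcard]
    exact hu
  obtain ⟨T, hTs, hT, hdis⟩ := disjoint_of_E_R _ _ k hu'
  choose T' hsub hne hout using hT
  choose l c hinj hmem harc using fun i => cycle_extract A hirr (T' i) (hne i) (hout i)
  refine ⟨u, l, c, hinj, harc, ?_⟩
  intro i i' hii j j' heq
  by_contra hcu
  have h6 : c i j ∈ T i := by
    have := hsub i (hmem i j)
    rw [Finset.mem_insert] at this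
    exact this.resolve_left hcu
  have h7 : c i j ∈ T i' := by
    have := hsub i' (hmem i' j')
    rw [← heq, Finset.mem_insert] at this
    exact this.resolve_left hcu
  exact (Finset.disjoint_left.1 (hdis i i' hii)) h6 h7

end BT496
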