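import Mathlib

set_option autoImplicit false

open Finset

namespace BT496

open Classical in
/-- counting 2-cycles -/
theorem two_cycles_count {V : Type} [Fintype V] [DecidableEq V] (A : V → V → Prop)
    (hirr : ∀ v, ¬ A v v) (d : ℕ) (hA : ∀ v, d ≤ #{w | A v w}) :
    2 * (Fintype.card V * d) ≤
      #{p ∈ (univ : Finset V) ×ˢ (univ : Finset V) | A p.1 p.2 ∧ A p.2 p.1} +
        Fintype.card V * (Fintype.card V - 1) := by
  classical
  set X : Finset (V × V) := (univ ×ˢ univ).filter (fun p : V × V => A p.1 p.2) with hX
  set Y : Finset (V × V) := (univ ×ˢ univ).filter (fun p : V × V => A p.2 p.1) with hY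
  have hXc : Fintype.card V * d ≤ X.card := by
    have h1 : X.card = ∑ v : V, ((univ : Finset V).filter (fun w => A v w)).card := by
      rw [hX, Finset.card_filter, Finset.sum_product]
      refine Finset.sum_congr rfl fun v _ => ?_
      rw [Finset.card_filter]
    rw [h1]
    calc Fintype.card V * d = ∑ _v : V, d := by simp
      _ ≤ _ := Finset.sum_le_sum fun v _ => by
        refine (hA v).trans (le_of_eq ?_)
        congr
  have hYX : Y.card = X.card := by
    apply Finset.card_bij' (fun p _ => p.swap) (fun p _ => p.swap)
    all_goals intro p hp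
    all_goals first
      | exact Prod.swap_swap p
      | (simp only [hX, hY, Finset.mem_filter, Finset.mem_product, Finset.mem_univ, true_and,
          and_self, Prod.fst_swap, Prod.snd_swap] at hp ⊢
         exact hp)
  have hsub : X ∪ Y ⊆ (univ : Finset V).offDiag := by
    intro p hp
    rw [Finset.mem_offDiag]
    refine ⟨Finset.mem_univ _, Finset.mem_univ _, ?_⟩
    intro heq
    rcases Finset.mem_union.mp hp with h | h
    · have := (Finset.mem_filter.mp h).2
      rw [heq] at this
      exact hirr _ this
    · have := (Finset.mem_filter.mp h).2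
      rw [heq] at this
      exact hirr _ this
  have hcard : (X ∪ Y).card ≤ Fintype.card V * (Fintype.card V - 1) := by
    refine (Finset.card_le_card hsub).trans (le_of_eq ?_)
    rw [Finset.offDiag_card, Finset.card_univ, Nat.mul_sub_one]
  have hint : (X ∩ Y).card =
      #{p ∈ (univ : Finset V) ×ˢ (univ : Finset V) | A p.1 p.2 ∧ A p.2 p.1} := by
    rw [hX, hY, ← Finset.filter_and]
  have hie := Finset.card_union_add_card_inter X Y
  rw [← hint]
  omega

end BT496
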