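import Mathlib
import Pool.Agent.Helper496.BT.Rooted
import Pool.Agent.Helper496.BT.ChooseM2
import Pool.Agent.Helper496.BT.EdgeSeq
import Pool.Agent.Helper496.BT.TwoCycles

set_option autoImplicit false

open Finset

namespace BT496

/-- `k` directed cycles `c 0, c 1, ...` (of lengths `l i + 2`), each meeting the union of the earlier ones
in at most one vertex -/
def NearlyDisjoint {V : Type} (A : V → V → Prop) (k : ℕ) : Prop :=
  ∃ (l : Fin k → ℕ) (c : (i : Fin k) → Fin (l i + 2) → V),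
    (∀ i, Function.Injective (c i)) ∧ (∀ i j, A (c i j) (c i (j + 1))) ∧
    ∀ i : Fin k, (Set.range (c i) ∩ ⋃ i' : Fin k, ⋃ (_ : i' < i), Set.range (c i')).ncard ≤ 1

theorem nearly_of_flower {V : Type} [Fintype V] (A : V → V → Prop) (k : ℕ) (h : Flower A k) :
    NearlyDisjoint A k := by
  obtain ⟨u, l, c, h1, h2, h3⟩ := h
  refine ⟨l, c, h1, h2, fun i => ?_⟩
  rw [Set.ncard_le_one (Set.toFinite _)]
  have key : ∀ x ∈ Set.range (c i) ∩ ⋃ i' : Fin k, ⋃ (_ : i' < i), Set.range (c i'), x = u := by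
    rintro x ⟨⟨j, rfl⟩, hx⟩
    simp only [Set.mem_iUnion] at hx
    obtain ⟨i', hi', j', hj'⟩ := hx
    exact h3 i i' (ne_of_gt hi') j j' hj'.symm
  intro x hx y hy
  rw [key x hx, key y hy]

open Classical in
theorem nearly_of_two_cycles {V : Type} [Fintype V] (A : V → V → Prop) (hirr : ∀ v, ¬ A v v)
    (d : ℕ) (hA : ∀ v, d ≤ #{w | A v w}) (k : ℕ)
    (h : k * (k - 1) + Fintype.card V * (Fintype.card V - 1) < 2 * (Fintype.card V * d)) :
    NearlyDisjoint A k := by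
  have h1 := two_cycles_count A hirr d hA
  have h2 : k * (k - 1) <
      #{p ∈ (univ : Finset V) ×ˢ (univ : Finset V) | A p.1 p.2 ∧ A p.2 p.1} := by omega
  obtain ⟨a, b, hab, -, -, hne⟩ := edge_seq (fun u v => A u v ∧ A v u) (fun v hv => hirr v hv.1)
    (fun u v huv => ⟨huv.2, huv.1⟩) k univ (by convert h2)
  have hr : ∀ (i : Fin k) (x : V), x ∈ Set.range (![a i, b i] : Fin 2 → V) ↔ (x = a i ∨ x = b i) := by
    intro i x
    constructor
    · rintro ⟨j, rfl⟩
      fin_cases j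
      · left; rfl
      · right; rfl
    · rintro (rfl | rfl)
      · exact ⟨0, rfl⟩
      · exact ⟨1, rfl⟩
  refine ⟨fun _ => 0, fun i => (![a i, b i] : Fin 2 → V), ?_, ?_, ?_⟩
  · intro i x y hxy
    have hne' : a i ≠ b i := by
      intro he
      have := (hab i).1
      rw [he] at this
      exact hirr _ this
    fin_cases x <;> fin_cases y
    · rfl
    · exact absurd hxy hne'
    · exact absurd hxy.symm hne'
    · rfl
  · intro i j
    have hj : ∀ j : Fin 2, A ((![a i, b i] : Fin 2 → V) j) ((![a i, b i] : Fin 2 → V) (j + 1)) := by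
      intro j
      fin_cases j
      · exact (hab i).1
      · exact (hab i).2
    exact hj j
  · intro i
    rw [Set.ncard_le_one (Set.toFinite _)]
    rintro x ⟨hx1, hx2⟩ y ⟨hy1, hy2⟩
    simp only [Set.mem_iUnion] at hx2 hy2
    obtain ⟨i1, hi1, hx2⟩ := hx2
    obtain ⟨i2, hi2, hy2⟩ := hy2
    exact hne i x y ((hr i x).1 hx1) ⟨i1, hi1, (hr i1 x).1 hx2⟩ ((hr i y).1 hy1)
      ⟨i2, hi2, (hr i2 y).1 hy2⟩

open Classical in
/-- all the bounds for nearly disjoint cycles -/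
theorem hr_main {V : Type} [Fintype V] [Nonempty V] (A : V → V → Prop) (hloop : ∀ v, ¬ A v v)
    (n d : ℕ) (hn : Fintype.card V = n) (hd : 1 ≤ d) (hA : ∀ v, d ≤ #{w | A v w}) :
    (∀ k : ℕ, k * (k - 1) + n * (n - 1) < 2 * n * d → NearlyDisjoint A k) ∧
    ((n - d) ^ 2 < n + d → NearlyDisjoint A d) ∧
    (∀ k : ℕ, k * (n - 1) ^ 2 < n * d ^ 2 → Flower A k) ∧
    (∀ k : ℕ, n ≤ 2 * d + 1 → 2 * k ≤ d → Flower A k) ∧
    (∀ k : ℕ, (k : ℝ) * (4 + Real.log (((n : ℝ) - 1) / d) +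
      Real.log (1 + Real.log (((n : ℝ) - 1) / d))) ≤ d → Flower A k) := by
  obtain ⟨v0⟩ := ‹Nonempty V›
  have : Nonempty V := ⟨v0⟩
  have hdn : d + 1 ≤ n := by
    have h1 := hA v0
    have h2 : ({w | A v0 w} : Finset V) ⊆ univ.erase v0 := by
      intro w hw
      rw [Finset.mem_filter] at hw
      refine Finset.mem_erase.2 ⟨?_, Finset.mem_univ _⟩
      rintro rfl
      exact hloop _ hw.2
    have h3 := Finset.card_le_card h2
    rw [Finset.card_erase_of_mem (Finset.mem_univ _), Finset.card_univ, hn] at h3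
    have h4 : 0 < Fintype.card V := Fintype.card_pos_iff.2 ⟨v0⟩
    omega
  have hn2 : 2 ≤ n := by omega
  have hone : ∀ k m : ℕ, 1 ≤ m →
      (k : ℝ) * (m - 1 + (1 - (d : ℝ) / (n - 1)) ^ (m - 1) *
        (m * ((d : ℝ) / (n - 1)) + (1 - (d : ℝ) / (n - 1))) / ((d : ℝ) / (n - 1)) ^ 2) < n →
      Flower A k := by
    intro k m hm hk
    have hE := BT496.E_HasCyc A hloop d m hd hm hA (by omega) (by omega)
    have hk' : (k : ℚ) * (m - 1 + (1 - (d : ℚ) / ((n : ℚ) - 1)) ^ (m - 1) *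
        (m * ((d : ℚ) / ((n : ℚ) - 1)) + (1 - (d : ℚ) / ((n : ℚ) - 1))) /
          ((d : ℚ) / ((n : ℚ) - 1)) ^ 2) < (n : ℚ) := by
      have := hk
      exact_mod_cast this
    rw [hn] at hE
    have hk0 : (0 : ℚ) ≤ k := by positivity
    have h6 : (k : ℚ) * (ES903.E univ (ES903.Fail (BT496.HasCyc A)) - 1) < (Fintype.card V : ℚ) := by
      rw [hn]
      refine lt_of_le_of_lt (mul_le_mul_of_nonneg_left ?_ hk0) hk'
      linarith
    exact flower_of_E A hloop k h6
  have htwo : ∀ k : ℕ, k * (n - 1) ^ 2 < n * d ^ 2 → Flower A k := by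
    intro k hk
    refine hone k 1 le_rfl ?_
    have hN : (0 : ℝ) < (n : ℝ) - 1 := by
      have : (2 : ℝ) ≤ n := by exact_mod_cast hn2
      linarith
    have hd' : (0 : ℝ) < d := by exact_mod_cast hd
    have hk2 : (k : ℝ) * ((n : ℝ) - 1) ^ 2 < (n : ℝ) * (d : ℝ) ^ 2 := by
      have h7 : ((k * (n - 1) ^ 2 : ℕ) : ℝ) < ((n * d ^ 2 : ℕ) : ℝ) := by
        exact_mod_cast hk
      push_cast at h7
      rw [Nat.cast_sub (by omega)] at h7
      push_cast at h7
      exact h7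
    have h8 : (k : ℝ) * ((1 : ℕ) - 1 + (1 - (d : ℝ) / (n - 1)) ^ (1 - 1) *
        ((1 : ℕ) * ((d : ℝ) / (n - 1)) + (1 - (d : ℝ) / (n - 1))) / ((d : ℝ) / (n - 1)) ^ 2) =
        (k : ℝ) * ((n : ℝ) - 1) ^ 2 / (d : ℝ) ^ 2 := by
      simp only [Nat.sub_self, pow_zero, Nat.cast_one]
      field_simp
      ring
    rw [h8, div_lt_iff₀ (by positivity)]
    exact hk2
  refine ⟨?_, ?_, htwo, ?_, ?_⟩
  · intro k hk
    apply nearly_of_two_cycles A hloop d hA k
    rw [hn, ← mul_assoc]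
    exact hk
  · intro h
    apply nearly_of_two_cycles A hloop d hA d
    rw [hn]
    obtain ⟨c, hc⟩ : ∃ c, n = d + (c + 1) := ⟨n - d - 1, by omega⟩
    obtain ⟨e, rfl⟩ : ∃ e, d = e + 1 := ⟨d - 1, by omega⟩
    have e1 : n - (e + 1) = c + 1 := by omega
    rw [e1] at h
    have e2 : n - 1 = e + 1 + c := by omega
    rw [e2, hc]
    rw [hc] at h
    simp only [Nat.add_sub_cancel]
    nlinarith [h]
  · intro k h1 h2
    apply htwo
    obtain ⟨r, hr⟩ : ∃ r, n - 1 = d + r := ⟨n - 1 - d, by omega⟩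
    have hr2 : n = d + r + 1 := by omega
    have hrd : r ≤ d := by omega
    rw [hr, hr2]
    have h9 : 2 * (k * (d + r) ^ 2) ≤ d * (d + r) ^ 2 := by
      calc 2 * (k * (d + r) ^ 2) = (2 * k) * (d + r) ^ 2 := by ring
        _ ≤ _ := Nat.mul_le_mul_right _ h2
    have h10 : d * (d + r) ^ 2 < 2 * ((d + r + 1) * d ^ 2) := by
      have h11 : (d + r) ^ 2 < 2 * ((d + r + 1) * d) := by nlinarith
      calc d * (d + r) ^ 2 < d * (2 * ((d + r + 1) * d)) :=
            Nat.mul_lt_mul_of_pos_left h11 hd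
        _ = 2 * ((d + r + 1) * d ^ 2) := by ring
    omega
  · intro k hk
    obtain ⟨m, hm1, hm2⟩ := BT496.choose_m' n d k hd (by omega) hk
    exact hone k m hm1 hm2

end BT496
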