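import Mathlib

set_option autoImplicit false

open Finset

namespace BT496

/-- `C` is the vertex set of a directed cycle (of length `l + 2`) of the digraph `A` -/
def IsCyc {V : Type} (A : V → V → Prop) (C : Set V) : Prop :=
  ∃ (l : ℕ) (c : Fin (l + 2) → V), Function.Injective c ∧ Set.range c = C ∧ ∀ j, A (c j) (c (j + 1))

/-- `k` directed cycles inside `W`, each meeting the union of the earlier ones in at most one vertex -/
def NDin {V : Type} (A : V → V → Prop) (W : Finset V) (k : ℕ) : Prop :=
  ∃ C : Fin k → Set V, (∀ i, IsCyc A (C i)) ∧ (∀ i, C i ⊆ (W : Set V)) ∧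
    ∀ i, (C i ∩ ⋃ i' : Fin k, ⋃ (_ : i' < i), C i').ncard ≤ 1

/-- add a 2-cycle through a new vertex `v` -/
theorem ndin_step {V : Type} [Fintype V] [DecidableEq V] (A : V → V → Prop) (hirr : ∀ v, ¬ A v v)
    (W : Finset V) (k : ℕ) (v u : V) (hv : v ∈ W) (hu : u ∈ W.erase v) (h1 : A u v) (h2 : A v u)
    (h : NDin A (W.erase v) k) : NDin A W (k + 1) := by
  obtain ⟨C, hC, hsub, hcard⟩ := h
  have huv : u ≠ v := (Finset.mem_erase.mp hu).1
  have huW : u ∈ W := (Finset.mem_erase.mp hu).2
  let D : Fin (k + 1) → Set V := Fin.snoc C ({u, v} : Set V)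
  have hD1 : ∀ i : Fin k, D i.castSucc = C i := fun i => Fin.snoc_castSucc (α := fun _ => Set V) _ _ i
  have hD2 : D (Fin.last k) = {u, v} := Fin.snoc_last (α := fun _ => Set V) _ _
  refine ⟨D, ?_, ?_, ?_⟩
  · intro i
    refine Fin.lastCases ?_ (fun i => ?_) i
    · rw [hD2]
      refine ⟨0, ![u, v], ?_, ?_, ?_⟩
      · intro a b hab
        fin_cases a <;> fin_cases b <;> simp_all [huv, huv.symm]
      · ext x
        simp only [Set.mem_range, Set.mem_insert_iff, Set.mem_singleton_iff]
        constructor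
        · rintro ⟨j, rfl⟩
          fin_cases j <;> simp
        · rintro (rfl | rfl)
          · exact ⟨0, rfl⟩
          · exact ⟨1, rfl⟩
      · intro j
        fin_cases j
        · exact h1
        · exact h2
    · rw [hD1]
      exact hC i
  · intro i
    refine Fin.lastCases ?_ (fun i => ?_) i
    · rw [hD2]
      rintro x (rfl | rfl)
      · exact huW
      · exact hv
    · rw [hD1]
      exact (hsub i).trans (fun x hx => (Finset.mem_erase.mp hx).2)
  · intro i
    refine Fin.lastCases ?_ (fun i => ?_) i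
    · rw [hD2]
      have hs : ({u, v} : Set V) ∩ (⋃ i' : Fin (k + 1), ⋃ (_ : i' < Fin.last k), D i') ⊆ {u} := by
        rintro x ⟨hx, hx2⟩
        simp only [Set.mem_iUnion] at hx2
        obtain ⟨i', hi', hx3⟩ := hx2
        rcases hx with rfl | hx
        · rfl
        · exfalso
          rw [Set.mem_singleton_iff] at hx
          subst hx
          obtain ⟨j, rfl⟩ := Fin.exists_castSucc_eq.mpr (ne_of_lt hi')
          rw [hD1] at hx3
          have := hsub j hx3
          simp at this
      calc (({u, v} : Set V) ∩ (⋃ i' : Fin (k + 1), ⋃ (_ : i' < Fin.last k), D i')).ncard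
          ≤ ({u} : Set V).ncard := Set.ncard_le_ncard hs (Set.toFinite _)
        _ = 1 := Set.ncard_singleton u
        _ ≤ 1 := le_rfl
    · have hU : (⋃ i' : Fin (k + 1), ⋃ (_ : i' < i.castSucc), D i') = ⋃ i' : Fin k, ⋃ (_ : i' < i), C i' := by
        ext x
        simp only [Set.mem_iUnion]
        constructor
        · rintro ⟨i', hi', hx⟩
          obtain ⟨j, rfl⟩ := Fin.exists_castSucc_eq.mpr (ne_of_lt (lt_of_lt_of_le hi' (Fin.le_last _)))
          rw [hD1] at hx
          exact ⟨j, Fin.castSucc_lt_castSucc_iff.mp hi', hx⟩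
        · rintro ⟨j, hj, hx⟩
          refine ⟨j.castSucc, Fin.castSucc_lt_castSucc_iff.mpr hj, ?_⟩
          rw [hD1]
          exact hx
      rw [hU, hD1]
      exact hcard i

end BT496
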