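import Mathlib
import Pool.Agent.Helper496.BT.HR
import Pool.Agent.Helper496.BT.Elim
import Pool.Agent.Helper496.BT.Step

set_option autoImplicit false

open Finset

namespace BT496

theorem ndin_zero {V : Type} (A : V → V → Prop) (W : Finset V) : NDin A W 0 :=
  ⟨fun i => i.elim0, fun i => i.elim0, fun i => i.elim0, fun i => i.elim0⟩

theorem ndin_of_flower {V : Type} [Fintype V] (A : V → V → Prop) (W : Finset V) (k : ℕ)
    (h : Flower (fun x y : {x // x ∈ W} => A x.1 y.1) k) : NDin A W k := by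
  obtain ⟨u, l, c, h1, h2, h3⟩ := h
  refine ⟨fun i => Set.range (fun j => (c i j).1), fun i => ⟨l i, fun j => (c i j).1,
    Subtype.val_injective.comp (h1 i), rfl, h2 i⟩, ?_, fun i => ?_⟩
  · rintro i x ⟨j, rfl⟩
    exact (c i j).2
  · rw [Set.ncard_le_one (Set.toFinite _)]
    have key : ∀ x ∈ Set.range (fun j => (c i j).1) ∩
        ⋃ i' : Fin k, ⋃ (_ : i' < i), Set.range (fun j => (c i' j).1), x = u.1 := by
      rintro x ⟨⟨j, rfl⟩, hx⟩
      simp only [Set.mem_iUnion] at hx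
      obtain ⟨i', hi', j', hj'⟩ := hx
      have := h3 i i' (ne_of_gt hi') j j' (Subtype.ext hj'.symm)
      simp [this]
    intro x hx y hy
    rw [key x hx, key y hy]

open Classical in
theorem ndin_flower {V : Type} [Fintype V] (A : V → V → Prop) (hloop : ∀ v, ¬ A v v)
    (W : Finset V) (d : ℕ) (hd : 1 ≤ d) (hne : W.Nonempty) (hW : ∀ v ∈ W, d ≤ #{w ∈ W | A v w})
    (k : ℕ) (hk : k * (#W - 1) ^ 2 < #W * d ^ 2) : NDin A W k := by
  obtain ⟨v0, hv0⟩ := hne
  have : Nonempty {x // x ∈ W} := ⟨⟨v0, hv0⟩⟩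
  have hcard : Fintype.card {x // x ∈ W} = #W := by simp
  have hdeg : ∀ v : {x // x ∈ W}, d ≤ #{w : {x // x ∈ W} | A v.1 w.1} := by
    intro v
    refine (hW v.1 v.2).trans ?_
    have : ({w ∈ W | A v.1 w} : Finset V) ⊆
        ({w : {x // x ∈ W} | A v.1 w.1} : Finset {x // x ∈ W}).image Subtype.val := by
      intro w hw
      rw [Finset.mem_filter] at hw
      rw [Finset.mem_image]
      exact ⟨⟨w, hw.1⟩, by simp [hw.2], rfl⟩
    exact (Finset.card_le_card this).trans Finset.card_image_le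
  have h := hr_main (fun x y : {x // x ∈ W} => A x.1 y.1) (fun v => hloop v.1) (#W) d hcard hd hdeg
  exact ndin_of_flower A W k (h.2.2.1 k hk)

/-- the vertex sets of `k` directed cycles, each meeting the union of the earlier ones in at most one vertex -/
def ND {V : Type} (A : V → V → Prop) (k : ℕ) : Prop :=
  ∃ C : Fin k → Set V, (∀ i, IsCyc A (C i)) ∧
    ∀ i, (C i ∩ ⋃ i' : Fin k, ⋃ (_ : i' < i), C i').ncard ≤ 1

theorem nd_of_ndin {V : Type} (A : V → V → Prop) (W : Finset V) (k : ℕ) (h : NDin A W k) :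
    ND A k := by
  obtain ⟨C, h1, _, h3⟩ := h
  exact ⟨C, h1, h3⟩

open Classical in
theorem nd_combined {V : Type} [Fintype V] [Nonempty V] (A : V → V → Prop) (hloop : ∀ v, ¬ A v v)
    (n d : ℕ) (hn : Fintype.card V = n) (hA : ∀ v, d ≤ #{w | A v w}) (hdn : d + 1 ≤ n)
    (t k : ℕ) (ht : t = 0 ∨ t * (t - 1) + n * (n - 1) < 2 * n * d)
    (hk : k = 0 ∨ (t < d ∧ k * (n - t - 1) ^ 2 < (n - t) * (d - t) ^ 2)) :
    ND A (k + t) := by
  apply nd_of_ndin A univ
  apply elim (fun u v => A u v ∧ A v u) (fun v hv => hloop v hv.1) (fun u v h => ⟨h.2, h.1⟩)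
    (fun W k => NDin A W k) ?_ k t univ ?_ ?_
  · intro W k v u hv hu hB h
    exact ndin_step A hloop W k v u hv hu hB.1 hB.2 h
  · rcases ht with h0 | h0
    · left; exact h0
    · right
      have h1 := two_cycles_count A hloop d hA
      rw [hn] at h1
      have h2 : 2 * n * d = 2 * (n * d) := by ring
      have h3 : t * (t - 1) <
        #{p ∈ (univ : Finset V) ×ˢ (univ : Finset V) | A p.1 p.2 ∧ A p.2 p.1} := by omega
      convert h3
  · intro W' _ hW'
    rw [Finset.card_univ, hn] at hW'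
    rcases hk with rfl | ⟨htd, hk⟩
    · exact ndin_zero A W'
    have hcW : #W' = n - t := by omega
    apply ndin_flower A hloop W' (d - t) (by omega)
    · rw [← Finset.card_pos]; omega
    · intro v _
      have h4 : ({w | A v w} : Finset V) ⊆ ({w ∈ W' | A v w} : Finset V) ∪ (univ \ W') := by
        intro w hw
        rw [Finset.mem_filter] at hw
        rw [Finset.mem_union, Finset.mem_filter, Finset.mem_sdiff]
        by_cases hwW : w ∈ W'
        · left; exact ⟨hwW, hw.2⟩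
        · right; exact ⟨Finset.mem_univ _, hwW⟩
      have h5 := (Finset.card_le_card h4).trans (Finset.card_union_le _ _)
      have h6 : #(univ \ W' : Finset V) = t := by
        rw [Finset.card_sdiff_of_subset (Finset.subset_univ _), Finset.card_univ, hn]
        omega
      have h7 := hA v
      omega
    · rw [hcW]
      exact hk

theorem nd_of_flower {V : Type} [Fintype V] (A : V → V → Prop) (k : ℕ) (h : Flower A k) :
    ND A k := by
  obtain ⟨u, l, c, h1, h2, h3⟩ := h
  refine ⟨fun i => Set.range (c i), fun i => ⟨l i, c i, h1 i, rfl, h2 i⟩, fun i => ?_⟩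
  rw [Set.ncard_le_one (Set.toFinite _)]
  have key : ∀ x ∈ Set.range (c i) ∩ ⋃ i' : Fin k, ⋃ (_ : i' < i), Set.range (c i'), x = u := by
    rintro x ⟨⟨j, rfl⟩, hx⟩
    simp only [Set.mem_iUnion] at hx
    obtain ⟨i', hi', j', hj'⟩ := hx
    exact h3 i i' (ne_of_gt hi') j j' hj'.symm
  intro x hx y hy
  rw [key x hx, key y hy]

open Classical in
theorem deg_lt_card {V : Type} [Fintype V] [Nonempty V] (A : V → V → Prop) (hloop : ∀ v, ¬ A v v)
    (n d : ℕ) (hn : Fintype.card V = n) (hA : ∀ v, d ≤ #{w | A v w}) : d + 1 ≤ n := by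
  obtain ⟨v0⟩ := ‹Nonempty V›
  have h1 := hA v0
  have h2 : ({w | A v0 w} : Finset V) ⊆ univ.erase v0 := by
    intro w hw
    rw [Finset.mem_filter] at hw
    refine Finset.mem_erase.2 ⟨?_, Finset.mem_univ _⟩
    rintro rfl
    exact hloop _ hw.2
  have h3 := Finset.card_le_card h2
  rw [Finset.card_erase_of_mem (Finset.mem_univ _), Finset.card_univ, hn] at h3
  have h4 : 0 < Fintype.card V := Fintype.card_pos_iff.2 ⟨v0⟩
  omega

open Classical in
theorem hr_final {V : Type} [Fintype V] [Nonempty V] (A : V → V → Prop) (hloop : ∀ v, ¬ A v v)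
    (n d : ℕ) (hn : Fintype.card V = n) (hd : 1 ≤ d) (hA : ∀ v, d ≤ #{w | A v w}) :
    ((n - d) ^ 2 < n + d → ND A d) ∧
    (∀ k : ℕ, n ≤ 2 * d + 1 → 2 * k + n ≤ 3 * d + 1 → ND A k) ∧
    (∀ t k : ℕ, t < d → (t = 0 ∨ t * (t - 1) + n * (n - 1) < 2 * n * d) →
      k * (n - t - 1) ^ 2 < (n - t) * (d - t) ^ 2 → ND A (k + t)) ∧
    (∀ k : ℕ, (k : ℝ) * (4 + Real.log (((n : ℝ) - 1) / d) +
      Real.log (1 + Real.log (((n : ℝ) - 1) / d))) ≤ d → ND A k) := by
  have hdn := deg_lt_card A hloop n d hn hA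
  refine ⟨?_, ?_, ?_, ?_⟩
  · intro h
    have h1 := nd_combined A hloop n d hn hA hdn d 0 (Or.inr ?_) (Or.inl rfl)
    · rw [Nat.zero_add] at h1; exact h1
    · obtain ⟨c, hc⟩ : ∃ c, n = d + (c + 1) := ⟨n - d - 1, by omega⟩
      obtain ⟨e, rfl⟩ : ∃ e, d = e + 1 := ⟨d - 1, by omega⟩
      have e1 : n - (e + 1) = c + 1 := by omega
      rw [e1] at h
      have e2 : n - 1 = e + 1 + c := by omega
      rw [e2, hc]
      rw [hc] at h
      simp only [Nat.add_sub_cancel]
      nlinarith [h]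
  · intro K h1 h2
    obtain ⟨t, ht⟩ : ∃ t, t + n = 2 * d + 1 := ⟨2 * d + 1 - n, by omega⟩
    have hbase : ∀ s, s ≤ t → (s = 0 ∨ s * (s - 1) + n * (n - 1) < 2 * n * d) := by
      intro s hs
      rcases Nat.eq_zero_or_pos s with h0 | h0
      · left; exact h0
      · right
        obtain ⟨m, rfl⟩ : ∃ m, n = m + 1 := ⟨n - 1, by omega⟩
        obtain ⟨r, rfl⟩ : ∃ r, s = r + 1 := ⟨s - 1, by omega⟩
        simp only [Nat.add_sub_cancel]
        have h3 : r + 1 + m ≤ 2 * d := by omega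
        have h4 : r + 1 ≤ m + 1 := by omega
        have h5 : (r + 1) * r < (m + 1) * (r + 1) := by nlinarith
        have h6 : (m + 1) * (r + 1 + m) ≤ (m + 1) * (2 * d) := Nat.mul_le_mul_left _ h3
        nlinarith
    by_cases hK : K ≤ t
    · have h3 := nd_combined A hloop n d hn hA hdn K 0 (hbase K hK) (Or.inl rfl)
      rw [Nat.zero_add] at h3; exact h3
    · obtain ⟨k, hk⟩ : ∃ k, K = k + t := ⟨K - t, by omega⟩
      obtain ⟨p, hp⟩ : ∃ p, n = d + 1 + p := ⟨n - d - 1, by omega⟩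
      have htp : t + p = d := by omega
      have hkp : 2 * k ≤ p := by omega
      rw [hk]
      refine nd_combined A hloop n d hn hA hdn t k (hbase t le_rfl) (Or.inr ⟨by omega, ?_⟩)
      have e1 : n - t - 1 = 2 * p := by omega
      have e2 : n - t = 2 * p + 1 := by omega
      have e3 : d - t = p := by omega
      rw [e1, e2, e3]
      have hp1 : 1 ≤ p := by omega
      have h7 : 2 * (k * (2 * p) ^ 2) ≤ p * (2 * p) ^ 2 := by
        calc 2 * (k * (2 * p) ^ 2) = (2 * k) * (2 * p) ^ 2 := by ring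
          _ ≤ _ := Nat.mul_le_mul_right _ hkp
      have h8 : p * (2 * p) ^ 2 < 2 * ((2 * p + 1) * p ^ 2) := by
        have : 0 < p ^ 2 := by positivity
        nlinarith
      omega
  · intro t k h1 h2 h3
    exact nd_combined A hloop n d hn hA hdn t k h2 (Or.inr ⟨h1, h3⟩)
  · intro k hk
    exact nd_of_flower A k ((hr_main A hloop n d hn hd hA).2.2.2.2 k hk)

end BT496
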