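import Mathlib
import Pool.Agent.Helper496.BT.HR2

set_option autoImplicit false

open Finset

namespace BT496

theorem ndin_one {V : Type} [Fintype V] (A : V → V → Prop) (hloop : ∀ v, ¬ A v v)
    (W : Finset V) (hne : W.Nonempty) (hW : ∀ v ∈ W, ∃ w ∈ W, A v w) : NDin A W 1 := by
  obtain ⟨l, c, h1, h2, h3⟩ := cycle_extract A hloop W hne hW
  refine ⟨fun _ => Set.range c, fun _ => ⟨l, c, h1, rfl, h3⟩, ?_, fun i => ?_⟩
  · rintro _ x ⟨j, rfl⟩
    exact h2 j
  · rw [Set.ncard_le_one (Set.toFinite _)]
    rintro x ⟨_, hx⟩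
    simp only [Set.mem_iUnion] at hx
    obtain ⟨i', hi', _⟩ := hx
    exact absurd hi' (by omega)

open Classical in
/-- the full conclusion for dense digraphs -/
theorem nd_full {V : Type} [Fintype V] [Nonempty V] (A : V → V → Prop) (hloop : ∀ v, ¬ A v v)
    (n d : ℕ) (hn : Fintype.card V = n) (hd : 1 ≤ d) (hA : ∀ v, d ≤ #{w | A v w})
    (h : (n - d) * (n - d - 1) + 2 < 4 * d) : ND A d := by
  have hdn := deg_lt_card A hloop n d hn hA
  obtain ⟨t, rfl⟩ : ∃ t, d = t + 1 := ⟨d - 1, by omega⟩
  obtain ⟨c, hc⟩ : ∃ c, n = (t + 1) + (c + 1) := ⟨n - (t + 1) - 1, by omega⟩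
  apply nd_of_ndin A univ
  rw [Nat.add_comm t 1]
  apply elim (fun u v => A u v ∧ A v u) (fun v hv => hloop v hv.1) (fun u v h => ⟨h.2, h.1⟩)
    (fun W k => NDin A W k) ?_ 1 t univ ?_ ?_
  · intro W k v u hv hu hB h
    exact ndin_step A hloop W k v u hv hu hB.1 hB.2 h
  · right
    have h1 := two_cycles_count A hloop (t + 1) hA
    rw [hn] at h1
    have e1 : n - (t + 1) = c + 1 := by omega
    rw [e1] at h
    simp only [Nat.add_sub_cancel] at h
    have h2 : t * (t - 1) + n * (n - 1) < 2 * (n * (t + 1)) := by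
      have e2 : n - 1 = t + 1 + c := by omega
      rw [e2, hc]
      rcases Nat.eq_zero_or_pos t with h0 | h0
      · subst h0
        simp only [Nat.zero_mul, Nat.zero_add]
        nlinarith [h]
      · obtain ⟨e, rfl⟩ : ∃ e, t = e + 1 := ⟨t - 1, by omega⟩
        simp only [Nat.add_sub_cancel]
        nlinarith [h]
    have h3 : t * (t - 1) <
      #{p ∈ (univ : Finset V) ×ˢ (univ : Finset V) | A p.1 p.2 ∧ A p.2 p.1} := by omega
    convert h3
  · intro W' _ hW'
    rw [Finset.card_univ, hn] at hW'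
    apply ndin_one A hloop W'
    · rw [← Finset.card_pos]; omega
    · intro v _
      by_contra hcon
      push Not at hcon
      have h4 : ({w | A v w} : Finset V) ⊆ (univ \ W') := by
        intro w hw
        rw [Finset.mem_filter] at hw
        rw [Finset.mem_sdiff]
        exact ⟨Finset.mem_univ _, fun hwW => hcon w hwW hw.2⟩
      have h5 := Finset.card_le_card h4
      have h6 : #(univ \ W' : Finset V) = t := by
        rw [Finset.card_sdiff_of_subset (Finset.subset_univ _), Finset.card_univ, hn]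
        omega
      have h7 := hA v
      omega

end BT496
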